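import Mathlib

namespace Pool.Agent.Results.MP_abe753_lc.NotLocal

open Function

/-- First-order formulas over the vocabulary: adjacency, `c` colours, the ternary relation `+`
and equality.  Variables are natural numbers. -/
inductive Fm (c : ℕ) : Type
  | eq : ℕ → ℕ → Fm c
  | adj : ℕ → ℕ → Fm c
  | col : Fin c → ℕ → Fm c
  | plus : ℕ → ℕ → ℕ → Fm c
  | not : Fm c → Fm c
  | and : Fm c → Fm c → Fm c
  | ex : ℕ → Fm c → Fm c

/-- A finite simple graph with `c` colour predicates. -/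
structure CGraph (c : ℕ) where
  V : Type
  fin : Finite V
  G : SimpleGraph V
  col : Fin c → Set V

/-- A numbering: a bijection from the vertices onto `{1, …, n}`. -/
def Numbering {c : ℕ} (A : CGraph c) (f : A.V → ℕ) : Prop :=
  Set.BijOn f Set.univ (Set.Icc 1 (Nat.card A.V))

/-- Tarski semantics in the graph `A` expanded by the addition relation of the numbering `f`. -/
def Sat {c : ℕ} (A : CGraph c) (f : A.V → ℕ) : Fm c → (ℕ → A.V) → Prop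
  | .eq i j, v => v i = v j
  | .adj i j, v => A.G.Adj (v i) (v j)
  | .col k i, v => v i ∈ A.col k
  | .plus i j k, v => f (v i) + f (v j) = f (v k)
  | .not φ, v => ¬ Sat A f φ v
  | .and φ ψ, v => Sat A f φ v ∧ Sat A f ψ v
  | .ex i φ, v => ∃ x, Sat A f φ (update v i x)

/-- The vertices at distance at most `r` from `a`. -/
def ball {c : ℕ} (A : CGraph c) (r : ℕ) (a : A.V) : Set A.V :=
  {v | ∃ w : A.G.Walk a v, w.length ≤ r}

/-- The `r`-neighbourhoods of `a` and `b` are isomorphic by a colour-preserving graph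
isomorphism sending `a` to `b`. -/
def NbhdIso {c : ℕ} (A : CGraph c) (r : ℕ) (a b : A.V) : Prop :=
  ∃ e : A.G.induce (ball A r a) ≃g A.G.induce (ball A r b),
    (∀ k x, x.1 ∈ A.col k ↔ (e x).1 ∈ A.col k) ∧ ∀ x, x.1 = a → (e x).1 = b

/-! ### The query, semantically.  Colours: 0 = P, 1 = red, 2 = L, 3 = I, 4 = Γ, 5 = cells,
6 = X, 7 = M. -/

section sem
variable (A : CGraph 8)

def val (g x l : A.V) : Prop := ∃ b, b ∈ A.col 5 ∧ A.G.Adj b g ∧ A.G.Adj b x ∧ A.G.Adj b l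

def lift1 (z x : A.V) : Prop := z ∈ A.col 7 ∧ A.G.Adj z x

def lift2 (z x : A.V) : Prop := ¬ z ∈ A.col 6 ∧ ∃ m, m ∈ A.col 7 ∧ A.G.Adj z m ∧ A.G.Adj m x

def step (k k' : A.V) : Prop :=
  ∀ g, g ∈ A.col 4 → A.G.Adj g k → ∀ g', g' ∈ A.col 4 → A.G.Adj g' k → ∀ i, i ∈ A.col 3 →
    ∃ h, h ∈ A.col 4 ∧ A.G.Adj h k' ∧ ∀ x, x ∈ A.col 6 → ∀ l, l ∈ A.col 2 →
      (val A h x l ↔ (A.G.Adj x i ∧ val A g x l) ∨ (¬ A.G.Adj x i ∧ val A g' x l))

def Guard : Prop :=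
  (∀ k, k ∈ A.col 2 → ∀ l, l ∈ A.col 2 → ∃ g, g ∈ A.col 4 ∧ A.G.Adj g k ∧
    ∀ x, x ∈ A.col 6 → ∀ l', l' ∈ A.col 2 → (val A g x l' ↔ l' = l)) ∧
  (∀ k, k ∈ A.col 2 → ∀ k', k' ∈ A.col 2 → k = k' ∨ step A k k' ∨ step A k' k) ∧
  (∀ x, x ∈ A.col 6 → ∀ y, y ∈ A.col 6 → x = y ∨
    ∃ i, i ∈ A.col 3 ∧ ¬ (A.G.Adj x i ↔ A.G.Adj y i)) ∧
  (∀ z, z ∈ A.col 0 ∨ ∃ x, x ∈ A.col 6 ∧ (z = x ∨ lift1 A z x ∨ lift2 A z x)) ∧
  (∀ z x z' x', x ∈ A.col 6 → x' ∈ A.col 6 → lift1 A z x → lift1 A z' x' → (z = z' ↔ x = x')) ∧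
  (∀ z x z' x', x ∈ A.col 6 → x' ∈ A.col 6 → lift2 A z x → lift2 A z' x' → (z = z' ↔ x = x')) ∧
  (∃ x y, x ∈ A.col 6 ∧ y ∈ A.col 6 ∧ ¬ x = y) ∧ (∃ x y, x ∈ A.col 2 ∧ y ∈ A.col 2 ∧ ¬ x = y) ∧
  ∃ z, ¬ z ∈ A.col 4

def img (f : A.V → ℕ) (c d g0 g1 g2 p l : A.V) : Prop :=
  ∃ z x, (f p + f c = f z ∨ f z + f d = f p) ∧ x ∈ A.col 6 ∧
    ((z = x ∧ val A g0 x l) ∨ (lift1 A z x ∧ val A g1 x l) ∨ (lift2 A z x ∧ val A g2 x l))

def Cert1 (f : A.V → ℕ) : Prop :=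
  ∃ c d g0 g1 g2, (∀ p, p ∈ A.col 0 → ∃ l, l ∈ A.col 2 ∧ img A f c d g0 g1 g2 p l) ∧
    ∀ p, p ∈ A.col 0 → ∀ q, q ∈ A.col 0 → ∀ l, l ∈ A.col 2 →
      img A f c d g0 g1 g2 p l → img A f c d g0 g1 g2 q l → p = q

def Cert2 (f : A.V → ℕ) (a : A.V) : Prop :=
  ∃ c d g0 g1 g2 l, img A f c d g0 g1 g2 a l ∧
    (∀ p, p ∈ A.col 0 → ∀ q, q ∈ A.col 0 → A.G.Adj p q →
      img A f c d g0 g1 g2 p l → img A f c d g0 g1 g2 q l) ∧
    ∀ p, p ∈ A.col 0 → p ∈ A.col 1 → ¬ img A f c d g0 g1 g2 p l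

def Sep (a : A.V) : Prop :=
  ∃ Y : Set A.V, a ∈ Y ∧ (∀ p, p ∈ A.col 0 → ∀ q, q ∈ A.col 0 → A.G.Adj p q → p ∈ Y → q ∈ Y) ∧
    ∀ p, p ∈ A.col 0 → p ∈ A.col 1 → p ∉ Y

end sem

/-! ### The formula -/

namespace Fm
variable {c : ℕ}
def or (φ ψ : Fm c) : Fm c := .not (.and (.not φ) (.not ψ))
def imp (φ ψ : Fm c) : Fm c := .not (.and φ (.not ψ))
def iff (φ ψ : Fm c) : Fm c := .and (imp φ ψ) (imp ψ φ)
def all (i : ℕ) (φ : Fm c) : Fm c := .not (.ex i (.not φ))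
def allc (k : Fin c) (i : ℕ) (φ : Fm c) : Fm c := all i (imp (.col k i) φ)
def exc (k : Fin c) (i : ℕ) (φ : Fm c) : Fm c := .ex i (.and (.col k i) φ)
end Fm

open Fm

section
variable {c : ℕ} (A : CGraph c) (f : A.V → ℕ) (φ ψ : Fm c) (v : ℕ → A.V)
lemma s_or : Sat A f (φ.or ψ) v ↔ Sat A f φ v ∨ Sat A f ψ v := by simp only [Fm.or, Sat]; tauto
lemma s_imp : Sat A f (φ.imp ψ) v ↔ (Sat A f φ v → Sat A f ψ v) := by simp [Fm.imp, Sat]
lemma s_iff : Sat A f (φ.iff ψ) v ↔ (Sat A f φ v ↔ Sat A f ψ v) := by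
  simp only [Fm.iff, Sat, s_imp]; tauto
lemma s_all (i : ℕ) : Sat A f (all i φ) v ↔ ∀ x, Sat A f φ (update v i x) := by simp [all, Sat]
end

def valF (g x l : ℕ) : Fm 8 := exc 5 20 (.and (.adj 20 g) (.and (.adj 20 x) (.adj 20 l)))
def l1F (z x : ℕ) : Fm 8 := .and (.col 7 z) (.adj z x)
def l2F (z x : ℕ) : Fm 8 := .and (.not (.col 6 z)) (exc 7 21 (.and (.adj z 21) (.adj 21 x)))
def stepF (k k' : ℕ) : Fm 8 :=
  allc 4 3 (imp (.adj 3 k) (allc 4 4 (imp (.adj 4 k) (allc 3 5 (exc 4 6 (.and (.adj 6 k')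
    (allc 6 7 (allc 2 8 (iff (valF 6 7 8)
      (or (.and (.adj 7 5) (valF 3 7 8)) (.and (.not (.adj 7 5)) (valF 4 7 8))))))))))))
def biF (L : ℕ → ℕ → Fm 8) : Fm 8 :=
  all 1 (all 2 (all 3 (all 4 (imp (.col 6 2) (imp (.col 6 4) (imp (L 1 2) (imp (L 3 4)
    (iff (.eq 1 3) (.eq 2 4)))))))))
def twoF (k : Fin 8) : Fm 8 := .ex 1 (.ex 2 (.and (.col k 1) (.and (.col k 2) (.not (.eq 1 2)))))
def guardF : Fm 8 :=
  .and (allc 2 1 (allc 2 2 (exc 4 3 (.and (.adj 3 1)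
    (allc 6 4 (allc 2 5 (iff (valF 3 4 5) (.eq 5 2))))))))
  (.and (allc 2 1 (allc 2 2 (or (.eq 1 2) (or (stepF 1 2) (stepF 2 1)))))
  (.and (allc 6 1 (allc 6 2 (or (.eq 1 2) (exc 3 3 (.not (iff (.adj 1 3) (.adj 2 3)))))))
  (.and (all 1 (or (.col 0 1) (exc 6 2 (or (.eq 1 2) (or (l1F 1 2) (l2F 1 2))))))
  (.and (biF l1F) (.and (biF l2F) (.and (twoF 6) (.and (twoF 2) (.ex 1 (.not (.col 4 1))))))))))
def imgF (p l : ℕ) : Fm 8 :=
  .ex 18 (.ex 19 (.and (or (.plus p 1 18) (.plus 18 2 p)) (.and (.col 6 19)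
    (or (.and (.eq 18 19) (valF 3 19 l)) (or (.and (l1F 18 19) (valF 4 19 l))
      (.and (l2F 18 19) (valF 5 19 l)))))))
def ex5 (φ : Fm 8) : Fm 8 := .ex 1 (.ex 2 (.ex 3 (.ex 4 (.ex 5 φ))))
def c1F : Fm 8 := ex5 (.and (allc 0 6 (exc 2 7 (imgF 6 7)))
  (allc 0 6 (allc 0 7 (allc 2 8 (imp (imgF 6 8) (imp (imgF 7 8) (.eq 6 7)))))))
def c2F : Fm 8 := ex5 (.ex 6 (.and (imgF 0 6) (.and
  (allc 0 7 (allc 0 8 (imp (.adj 7 8) (imp (imgF 7 6) (imgF 8 6)))))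
  (allc 0 7 (imp (.col 1 7) (.not (imgF 7 6)))))))
def phi : Fm 8 := .and guardF (.and (.col 0 0) (.and c1F c2F))

lemma sat_phi (A : CGraph 8) (f : A.V → ℕ) (a : A.V) :
    Sat A f phi (fun _ => a) ↔ Guard A ∧ a ∈ A.col 0 ∧ Cert1 A f ∧ Cert2 A f a := by
  simp only [phi, guardF, c1F, c2F, ex5, imgF, twoF, biF, stepF, l1F, l2F, valF, allc, exc, Sat,
    s_or, s_imp, s_iff, s_all, update_apply, Nat.reduceEqDiff, reduceIte, OfNat.ofNat_ne_one,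
    OfNat.one_ne_ofNat, OfNat.zero_ne_ofNat, zero_ne_one]
  rfl

/-! ### Invariance -/

def Good (A : CGraph 8) (s : ℕ) (k : A.V) : Prop :=
  ∀ S : Finset A.V, (∀ x ∈ S, x ∈ A.col 6) → S.card ≤ s → ∀ h : A.V → A.V,
    (∀ x, h x ∈ A.col 2) → ∃ g, g ∈ A.col 4 ∧ A.G.Adj g k ∧
      ∀ x ∈ S, ∀ l ∈ A.col 2, (val A g x l ↔ l = h x)

lemma good_one {A : CGraph 8} (H : Guard A) {k : A.V} (hk : k ∈ A.col 2) : Good A 1 k := by
  intro S hS hc h hh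
  have : Nonempty A.V := ⟨k⟩
  obtain ⟨y, hy⟩ := Finset.card_le_one_iff_subset_singleton.1 hc
  obtain ⟨g, g1, g2, g3⟩ := H.1 k hk (h y) (hh y)
  refine ⟨g, g1, g2, fun x hx l hl => ?_⟩
  rw [g3 x (hS x hx) l hl, Finset.mem_singleton.1 (hy hx)]

lemma good_step {A : CGraph 8} (H : Guard A) {k k' : A.V} (hk : k' ∈ A.col 2) {s : ℕ}
    (hs : step A k k') (G : Good A s k) : Good A (s + 1) k' := by
  classical
  intro S hS hc h hh
  by_cases h1 : S.card ≤ 1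
  · exact good_one H hk S hS h1 h hh
  obtain ⟨x, hx, y, hy, hxy⟩ := Finset.one_lt_card.1 (not_le.1 h1)
  obtain ⟨i, hi, hxi⟩ := (H.2.2.1 x (hS x hx) y (hS y hy)).resolve_left hxy
  have e := Finset.card_filter_add_card_filter_not (s := S) (fun z => A.G.Adj z i)
  have p1 : 0 < (S.filter (fun z => A.G.Adj z i)).card := by
    rw [Finset.card_pos]
    by_cases a : A.G.Adj x i
    · exact ⟨x, Finset.mem_filter.2 ⟨hx, a⟩⟩
    · exact ⟨y, Finset.mem_filter.2 ⟨hy, by tauto⟩⟩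
  have p2 : 0 < (S.filter (fun z => ¬ A.G.Adj z i)).card := by
    rw [Finset.card_pos]
    by_cases a : A.G.Adj x i
    · exact ⟨y, Finset.mem_filter.2 ⟨hy, by tauto⟩⟩
    · exact ⟨x, Finset.mem_filter.2 ⟨hx, a⟩⟩
  obtain ⟨g, g1, g2, g3⟩ := G (S.filter (fun z => A.G.Adj z i))
    (fun z hz => hS z (Finset.mem_filter.1 hz).1) (by omega) h hh
  obtain ⟨g', g1', g2', g3'⟩ := G (S.filter (fun z => ¬ A.G.Adj z i))
    (fun z hz => hS z (Finset.mem_filter.1 hz).1) (by omega) h hh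
  obtain ⟨u, u1, u2, u3⟩ := hs g g1 g2 g' g1' g2' i hi
  refine ⟨u, u1, u2, fun z hz l hl => ?_⟩
  rw [u3 z (hS z hz) l hl]
  by_cases a : A.G.Adj z i
  · simp [a, g3 z (Finset.mem_filter.2 ⟨hz, a⟩) l hl]
  · simp [a, g3' z (Finset.mem_filter.2 ⟨hz, a⟩) l hl]

lemma bad_card {A : CGraph 8} (H : Guard A) (s : ℕ) :
    {k | k ∈ A.col 2 ∧ ¬ Good A (s + 1) k}.ncard ≤ s := by
  have := A.fin
  induction s with
  | zero =>
    rw [Nat.le_zero, Set.ncard_eq_zero, Set.eq_empty_iff_forall_notMem]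
    exact fun k hk => hk.2 (good_one H hk.1)
  | succ s ih =>
    by_cases h : ∃ k, k ∈ A.col 2 ∧ Good A (s + 1) k ∧ ¬ Good A (s + 1 + 1) k
    · obtain ⟨k, k1, k2, k3⟩ := h
      refine le_trans (Set.ncard_le_ncard (t := insert k {k | k ∈ A.col 2 ∧ ¬ Good A (s + 1) k})
        fun j hj => ?_) ((Set.ncard_insert_le _ _).trans (by omega))
      by_contra hn
      simp only [Set.mem_insert_iff, Set.mem_ofPred_eq, not_or, not_and, not_not] at hn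
      rcases H.2.1 k k1 j hj.1 with e | e | e
      · exact hn.1 e.symm
      · exact hj.2 (good_step H hj.1 e k2)
      · exact k3 (good_step H k1 e (hn.2 hj.1))
    · refine le_trans (Set.ncard_le_ncard fun j hj => ?_) (ih.trans (Nat.le_succ _))
      exact ⟨hj.1, fun g => h ⟨j, hj.1, g, hj.2⟩⟩

lemma realize {A : CGraph 8} (H : Guard A) (S : Set A.V) (hS : S ⊆ A.col 6)
    (hc : S.ncard ≤ (A.col 2).ncard) (h : A.V → A.V) (hh : ∀ x, h x ∈ A.col 2) :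
    ∃ g, g ∈ A.col 4 ∧ ∀ x ∈ S, ∀ l ∈ A.col 2, (val A g x l ↔ l = h x) := by
  have := A.fin
  obtain ⟨l, -, hl, -⟩ := H.2.2.2.2.2.2.2.1
  have p : 0 < (A.col 2).ncard := (Set.ncard_pos).2 ⟨l, hl⟩
  have b := bad_card H ((A.col 2).ncard - 1)
  obtain ⟨k, k1, k2⟩ := Set.exists_mem_notMem_of_ncard_lt_ncard
    (lt_of_le_of_lt b (Nat.sub_lt p one_pos))
  have G : Good A ((A.col 2).ncard - 1 + 1) k := by
    by_contra n
    exact k2 ⟨k1, n⟩
  obtain ⟨g, g1, -, g3⟩ := G S.toFinite.toFinset (fun x hx => hS (by simpa using hx))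
    (by rw [← Set.ncard_eq_toFinset_card]; omega) h hh
  exact ⟨g, g1, by simpa using g3⟩

lemma two_le {A : CGraph 8} (H : Guard A) : 2 ≤ (A.col 2).ncard := by
  have := A.fin
  obtain ⟨x, y, hx, hy, hxy⟩ := H.2.2.2.2.2.2.2.1
  exact (Set.one_lt_ncard).2 ⟨x, hx, y, hy, hxy⟩

lemma big {A : CGraph 8} (H : Guard A) : (A.col 2).ncard * (A.col 2).ncard < Nat.card A.V := by
  classical
  have := A.fin
  obtain ⟨x, y, hx, hy, hxy⟩ := H.2.2.2.2.2.2.1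
  obtain ⟨z, hz⟩ := H.2.2.2.2.2.2.2.2
  have : ∀ p : A.col 2 × A.col 2, ∃ g, g ∈ A.col 4 ∧ (∀ l ∈ A.col 2, val A g x l ↔ l = p.1) ∧
      ∀ l ∈ A.col 2, val A g y l ↔ l = p.2 := by
    intro p
    obtain ⟨g, g1, g2⟩ := realize H {x, y} (by rintro _ (rfl | rfl) <;> assumption)
      (by rw [Set.ncard_pair hxy]; exact two_le H) (fun u => if u = x then p.1 else p.2)
      (fun u => by split_ifs; exacts [p.1.2, p.2.2])
    exact ⟨g, g1, by simpa using g2 x (by simp), by simpa [Ne.symm hxy] using g2 y (by simp)⟩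
  choose g g1 g2 g3 using this
  have inj : Injective (fun p => (⟨g p, g1 p⟩ : A.col 4)) := by
    intro p q e
    have e : g p = g q := congrArg Subtype.val e
    exact Prod.ext (Subtype.ext ((g2 q _ p.1.2).1 (e ▸ (g2 p _ p.1.2).2 rfl)))
      (Subtype.ext ((g3 q _ p.2.2).1 (e ▸ (g3 p _ p.2.2).2 rfl)))
  have := Nat.card_le_card_of_injective _ inj
  rw [Nat.card_prod, Nat.card_coe_set_eq, Nat.card_coe_set_eq] at this
  exact this.trans_lt (Set.ncard_lt_card (fun e => hz (e ▸ trivial)))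

lemma realize_rel {A : CGraph 8} (H : Guard A) (hP : (A.col 0).ncard ≤ (A.col 2).ncard)
    (R : A.V → A.V → Prop)
    (hR : ∀ p x q y, p ∈ A.col 0 → q ∈ A.col 0 → x ∈ A.col 6 → y ∈ A.col 6 → R p x → R q y →
      (p = q ↔ x = y)) (h : A.V → A.V) (hh : ∀ x, h x ∈ A.col 2) :
    ∃ g, ∀ p ∈ A.col 0, ∀ x ∈ A.col 6, R p x → ∀ l ∈ A.col 2, (val A g x l ↔ l = h p) := by
  classical
  have := A.fin
  have : ∀ x, ∃ p, (∃ p ∈ A.col 0, R p x) → p ∈ A.col 0 ∧ R p x := fun x => by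
    by_cases e : ∃ p ∈ A.col 0, R p x
    · exact e.imp fun p hp _ => hp
    · exact ⟨x, fun e' => absurd e' e⟩
  choose π hπ using this
  obtain ⟨g, -, g2⟩ := realize H {x | x ∈ A.col 6 ∧ ∃ p ∈ A.col 0, R p x} (fun x hx => hx.1)
    (le_trans (Set.ncard_le_ncard_of_injOn π (fun x hx => (hπ x hx.2).1) (fun x hx y hy e =>
      (hR _ _ _ _ (hπ x hx.2).1 (hπ y hy.2).1 hx.1 hy.1 (hπ x hx.2).2 (hπ y hy.2).2).1 e)) hP)
    (h ∘ π) (fun x => hh _)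
  refine ⟨g, fun p hp x hx r l hl => ?_⟩
  have e := hπ x ⟨p, hp, r⟩
  rw [g2 x ⟨hx, p, hp, r⟩ l hl, comp_apply, (hR _ _ _ _ e.1 hp hx hx e.2 r).2 rfl]

lemma complete {A : CGraph 8} (H : Guard A) (hP : (A.col 0).ncard ≤ (A.col 2).ncard)
    {f : A.V → ℕ} (hf : Numbering A f) {a : A.V} (ha : a ∈ A.col 0) (h : A.V → A.V)
    (hh : ∀ x, h x ∈ A.col 2) : ∃ c d g0 g1 g2, ∀ p ∈ A.col 0, ∀ l ∈ A.col 2,
      (img A f c d g0 g1 g2 p l ↔ l = h p) := by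
  have := A.fin
  have bd : ∀ v, 1 ≤ f v ∧ f v ≤ Nat.card A.V := fun v => hf.1 trivial
  have inj : ∀ u v, f u = f v → u = v := fun u v e => hf.2.1 trivial trivial e
  have sur : ∀ t, 1 ≤ t → t ≤ Nat.card A.V → ∃ v, f v = t := fun t a b =>
    (hf.2.2 ⟨a, b⟩).imp fun v hv => hv.2
  let δ : A.V × A.V → ℕ := fun p =>
    if f p.1 < f p.2 then f p.2 - f p.1 else f p.2 + Nat.card A.V - f p.1
  obtain ⟨t, t1, t2⟩ := Set.exists_mem_notMem_of_ncard_lt_ncard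
    (s := δ '' (A.col 0 ×ˢ A.col 0)) (t := Set.Icc 1 (Nat.card A.V)) (by
      refine (Set.ncard_image_le).trans_lt ?_
      rw [Set.ncard_prod]
      simpa using (Nat.mul_le_mul hP hP).trans_lt (big H))
  have t3 : ∀ p ∈ A.col 0, ∀ q ∈ A.col 0, δ (p, q) ≠ t := fun p hp q hq e =>
    t2 ⟨(p, q), ⟨hp, hq⟩, e⟩
  have t4 : Nat.card A.V ≠ t := by simpa [δ] using t3 a ha a ha
  obtain ⟨t1, t5⟩ := t1
  obtain ⟨c, hc⟩ := sur t t1 t5
  obtain ⟨d, hd⟩ := sur (Nat.card A.V - t) (by omega) (by omega)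
  let sh : A.V → A.V → Prop := fun p z => f p + f c = f z ∨ f z + f d = f p
  have bi : ∀ p z q w, sh p z → sh q w → (p = q ↔ z = w) := by
    intro p z q w e e'
    have := bd p; have := bd z; have := bd q; have := bd w
    refine ⟨fun e => inj _ _ ?_, fun e => inj _ _ ?_⟩ <;> subst e <;> simp only [sh] at e e' <;>
      omega
  have tot : ∀ p ∈ A.col 0, ∃ z, sh p z ∧ z ∉ A.col 0 := by
    intro p hp
    have := bd p
    obtain ⟨z, hz⟩ : ∃ z, sh p z := by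
      by_cases e : f p + t ≤ Nat.card A.V
      · exact (sur (f p + t) (by omega) e).imp fun z hz => Or.inl (by omega)
      · exact (sur (f p + t - Nat.card A.V) (by omega) (by omega)).imp
          fun z hz => Or.inr (by omega)
    refine ⟨z, hz, fun hz' => t3 p hp z hz' ?_⟩
    have := bd z
    simp only [δ, sh] at hz ⊢
    split_ifs <;> omega
  have key : ∀ L : A.V → A.V → Prop, (∀ z x z' x', x ∈ A.col 6 → x' ∈ A.col 6 → L z x →
      L z' x' → (z = z' ↔ x = x')) → ∃ g, ∀ p ∈ A.col 0, ∀ x ∈ A.col 6, (∃ z, sh p z ∧ L z x) →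
      ∀ l ∈ A.col 2, (val A g x l ↔ l = h p) := by
    intro L hL
    refine realize_rel H hP _ ?_ h hh
    rintro p x q y - - hx hy ⟨z, z1, z2⟩ ⟨w, w1, w2⟩
    exact (bi _ _ _ _ z1 w1).trans (hL _ _ _ _ hx hy z2 w2)
  obtain ⟨g0, e0⟩ := key (fun z x => z = x) (by rintro _ _ _ _ - - rfl rfl; rfl)
  obtain ⟨g1, e1⟩ := key _ H.2.2.2.2.1
  obtain ⟨g2, e2⟩ := key _ H.2.2.2.2.2.1
  refine ⟨c, d, g0, g1, g2, fun p hp l hl => ⟨?_, fun e => ?_⟩⟩
  · rintro ⟨z, x, z1, hx, ⟨u, v⟩ | ⟨u, v⟩ | ⟨u, v⟩⟩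
    · exact (e0 p hp x hx ⟨z, z1, u⟩ l hl).1 v
    · exact (e1 p hp x hx ⟨z, z1, u⟩ l hl).1 v
    · exact (e2 p hp x hx ⟨z, z1, u⟩ l hl).1 v
  · obtain ⟨z, z1, z2⟩ := tot p hp
    obtain ⟨x, hx, u⟩ := (H.2.2.2.1 z).resolve_left z2
    refine ⟨z, x, z1, hx, u.imp (fun u => ⟨u, ?_⟩) (Or.imp (fun u => ⟨u, ?_⟩) fun u => ⟨u, ?_⟩)⟩
    · exact (e0 p hp x hx ⟨z, z1, u⟩ l hl).2 e
    · exact (e1 p hp x hx ⟨z, z1, u⟩ l hl).2 e
    · exact (e2 p hp x hx ⟨z, z1, u⟩ l hl).2 e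

lemma sat_iff (A : CGraph 8) {f : A.V → ℕ} (hf : Numbering A f) (a : A.V) :
    Sat A f phi (fun _ => a) ↔
      Guard A ∧ a ∈ A.col 0 ∧ (A.col 0).ncard ≤ (A.col 2).ncard ∧ Sep A a := by
  classical
  have := A.fin
  rw [sat_phi]
  refine and_congr_right fun H => and_congr_right fun ha => ⟨?_, ?_⟩
  · rintro ⟨⟨c, d, g0, g1, g2, h1, h2⟩, c', d', g0', g1', g2', l, h3⟩
    refine ⟨?_, {p | img A f c' d' g0' g1' g2' p l}, h3⟩
    choose! π p1 p2 using h1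
    exact Set.ncard_le_ncard_of_injOn π p1
      fun p hp q hq e => h2 p hp q hq _ (p1 p hp) (p2 p hp) (e ▸ p2 q hq)
  · rintro ⟨hP, Y, Y1, Y2, Y3⟩
    obtain ⟨x, y, hx, hy, hxy⟩ := H.2.2.2.2.2.2.2.1
    constructor
    · have : Nonempty A.V := ⟨a⟩
      obtain ⟨e, e1, e2⟩ := (A.col 0).toFinite.exists_injOn_of_encard_le (t := A.col 2)
        (by rw [← (A.col 0).toFinite.cast_ncard_eq, ← (A.col 2).toFinite.cast_ncard_eq]
            exact_mod_cast hP)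
      obtain ⟨c, d, g0, g1, g2, h⟩ := complete H hP hf ha (fun p => if p ∈ A.col 0 then e p else x)
        (fun p => by split_ifs with hp; exacts [e1 hp, hx])
      refine ⟨c, d, g0, g1, g2, fun p hp => ⟨e p, e1 hp, (h p hp _ (e1 hp)).2 (by simp [hp])⟩,
        fun p hp q hq l hl u v => e2 hp hq ?_⟩
      rw [h _ hp l hl, if_pos hp] at u
      rw [h _ hq l hl, if_pos hq] at v
      exact u.symm.trans v
    · obtain ⟨c, d, g0, g1, g2, h⟩ := complete H hP hf ha (fun p => if p ∈ Y then x else y)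
        (fun p => by split_ifs <;> assumption)
      have : ∀ p ∈ A.col 0, img A f c d g0 g1 g2 p x ↔ p ∈ Y := fun p hp => by
        rw [h p hp x hx]
        split_ifs <;> simp [*]
      exact ⟨c, d, g0, g1, g2, x, (this a ha).2 Y1, fun p hp q hq e => by
        rw [this p hp, this q hq]; exact Y2 p hp q hq e, fun p hp e => by
        rw [this p hp]; exact Y3 p hp e⟩

/-! ### The models -/

section model
variable (t m : ℕ)

abbrev X (m : ℕ) := Fin m → Bool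

def D : ℕ → Finset (X m → Fin t)
  | 0 => Finset.univ.image (fun l _ => l)
  | k + 1 => D k ∪ (Finset.univ ×ˢ D k ×ˢ D k).image
      (fun p x => if x p.1 then p.2.1 x else p.2.2 x)

lemma D_mono : Monotone (D t m) := monotone_nat_of_le_succ fun _ => Finset.subset_union_left

lemma D_card (k : ℕ) : ∃ d, ∀ m, (D t m k).card ≤ (m + t + 1) ^ d := by
  induction k with
  | zero => exact ⟨1, fun m => Finset.card_image_le.trans (by simp; omega)⟩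
  | succ k ih =>
    obtain ⟨d, hd⟩ := ih
    refine ⟨d + d + 1, fun m => (Finset.card_union_le _ _).trans
      ((Nat.add_le_add_left Finset.card_image_le _).trans ?_)⟩
    have := hd m
    simp only [Finset.card_product, Finset.card_univ, Fintype.card_fin, pow_succ, pow_add]
    generalize (D t m k).card = a at this ⊢
    generalize (m + t + 1) ^ d = b at this ⊢
    have h1 : a ≤ a * a := Nat.le_mul_self a
    have h2 : a * a ≤ b * b := Nat.mul_le_mul this this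
    nlinarith [Nat.zero_le (b * b * t), Nat.mul_le_mul_left m h2]

abbrev Gam := {g // g ∈ D t m t}

abbrev R := Fin t ⊕ Fin m ⊕ Gam t m ⊕ Gam t m × Fin t

lemma emb : ∃ m, Nonempty (R t m ↪ X m) := by
  obtain ⟨d, hd⟩ := D_card t t
  have := (tendsto_pow_const_div_const_pow_of_one_lt (d + 2) (r := 2) (by norm_num)).comp
    (Filter.tendsto_add_atTop_nat (t + 1))
  obtain ⟨m, hm⟩ := (this.eventually (gt_mem_nhds (show (0 : ℝ) < 1 / 2 ^ (t + 1) by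
    positivity))).exists
  refine ⟨m, Embedding.nonempty_of_card_le ?_⟩
  simp only [comp_apply] at hm
  rw [div_lt_div_iff₀ (by positivity) (by positivity), pow_add 2 m, one_mul,
    mul_lt_mul_iff_left₀ (by positivity)] at hm
  have hm : (m + (t + 1)) ^ (d + 2) < 2 ^ m := by exact_mod_cast hm
  have := hd m
  have h1 : 1 ≤ (m + t + 1) ^ d := Nat.one_le_pow _ _ (by omega)
  simp only [Fintype.card_sum, Fintype.card_fin, Fintype.card_coe, Fintype.card_prod,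
    Fintype.card_pi, Fintype.card_bool, Finset.prod_const, Finset.card_univ]
  refine le_trans ?_ hm.le
  rw [pow_add, ← add_assoc m]
  generalize (D t m t).card = a at this ⊢
  generalize (m + t + 1) ^ d = b at this h1 ⊢
  nlinarith [Nat.mul_le_mul_right t this, Nat.mul_le_mul_right (m + t + 1) h1, Nat.zero_le (b * m),
    Nat.zero_le (b * t * t), Nat.zero_le (b * m * t), Nat.zero_le (b * m * m)]

abbrev V (r : ℕ) := (Bool × Fin (r + 2)) ⊕ X m ⊕ R t m ⊕ R t m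

variable {t m} {r : ℕ}

abbrev vX (x : X m) : V t m r := .inr (.inl x)
abbrev vR (w : R t m) : V t m r := .inr (.inr (.inl w))
abbrev vM (w : R t m) : V t m r := .inr (.inr (.inr w))
abbrev vL (l : Fin t) : V t m r := vR (.inl l)
abbrev vI (i : Fin m) : V t m r := vR (.inr (.inl i))
abbrev vG (g : Gam t m) : V t m r := vR (.inr (.inr (.inl g)))
abbrev vC (c : Gam t m × Fin t) : V t m r := vR (.inr (.inr (.inr c)))

inductive Rel (e : R t m ↪ X m) : V t m r → V t m r → Prop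
  | p (b i j) (h : i.1 + 1 = j.1) : Rel e (.inl (b, i)) (.inl (b, j))
  | xi (x i) (h : x i = true) : Rel e (vX x) (vI i)
  | gl (g k) (h : g.1 ∈ D t m k.1) : Rel e (vG g) (vL k)
  | cg (g l) : Rel e (vC (g, l)) (vG g)
  | cl (g l) : Rel e (vC (g, l)) (vL l)
  | cx (g x) : Rel e (vC (g, g.1 x)) (vX x)
  | mr (w) : Rel e (vM w) (vR w)
  | mx (w) : Rel e (vM w) (vX (e w))

@[reducible] def Md (r : ℕ) (e : R t m ↪ X m) : CGraph 8 where
  V := V t m r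
  fin := inferInstance
  G := SimpleGraph.fromRel (Rel e)
  col := ![Set.range .inl, {.inl (true, Fin.last _)}, Set.range vL, Set.range vI, Set.range vG,
    Set.range vC, Set.range vX, Set.range vM]

variable (e : R t m ↪ X m)

lemma ad {u v : V t m r} (h : Rel e u v) (n : u ≠ v) : (Md r e).G.Adj u v := ⟨n, Or.inl h⟩

lemma val_iff (g : Gam t m) (x : X m) (l : Fin t) :
    val (Md r e) (vG g) (vX x) (vL l) ↔ l = g.1 x := by
  constructor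
  · rintro ⟨_, ⟨c, rfl⟩, ⟨-, a | a⟩, ⟨-, b | b⟩, ⟨-, c | c⟩⟩ <;> cases a <;> cases c <;> cases b
    rfl
  · rintro rfl
    exact ⟨_, ⟨(g, g.1 x), rfl⟩, ad e (.cg _ _) (by simp), ad e (.cx _ _) (by simp),
      ad e (.cl _ _) (by simp)⟩

lemma xi_iff (x : X m) (i : Fin m) : (Md r e).G.Adj (vX x) (vI i) ↔ x i = true :=
  ⟨by rintro ⟨-, a | a⟩ <;> cases a; assumption, fun h => ad e (.xi _ _ h) (by simp)⟩

lemma gl_iff (g : Gam t m) (k : Fin t) : (Md r e).G.Adj (vG g) (vL k) ↔ g.1 ∈ D t m k :=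
  ⟨by rintro ⟨-, a | a⟩ <;> cases a; assumption, fun h => ad e (.gl _ _ h) (by simp)⟩

lemma step_lt {k k' : Fin t} (h : k < k') : step (Md r e) (vL k) (vL k') := by
  rintro _ ⟨g, rfl⟩ hg _ ⟨g', rfl⟩ hg' _ ⟨i, rfl⟩
  rw [gl_iff] at hg hg'
  have : (fun x => if x i then g.1 x else g'.1 x) ∈ D t m k' :=
    D_mono t m (show k.1 + 1 ≤ k' from h) (Finset.mem_union_right _
      (Finset.mem_image.2 ⟨(i, g.1, g'.1), by simp [hg, hg'], rfl⟩))
  refine ⟨_, ⟨⟨_, D_mono t m k'.2.le this⟩, rfl⟩, (gl_iff e _ _).2 this, ?_⟩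
  rintro _ ⟨x, rfl⟩ _ ⟨l, rfl⟩
  rw [val_iff, val_iff, val_iff, xi_iff]
  by_cases a : x i = true <;> simp [a]

lemma guard (ht : 2 ≤ t) : Guard (Md r e) := by
  refine ⟨?_, ?_, ?_, ?_, ?_, ?_, ?_, ?_, ⟨.inl (true, 0), by simp⟩⟩
  · rintro _ ⟨k, rfl⟩ _ ⟨l, rfl⟩
    have : (fun _ => l) ∈ D t m 0 := Finset.mem_image.2 ⟨l, Finset.mem_univ _, rfl⟩
    refine ⟨_, ⟨⟨_, D_mono t m t.zero_le this⟩, rfl⟩,
      (gl_iff e _ _).2 (D_mono t m (Nat.zero_le _) this), ?_⟩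
    rintro _ ⟨x, rfl⟩ _ ⟨l, rfl⟩
    simp [val_iff]
  · rintro _ ⟨k, rfl⟩ _ ⟨l, rfl⟩
    rcases lt_trichotomy k l with h | rfl | h
    exacts [Or.inr (Or.inl (step_lt e h)), Or.inl rfl, Or.inr (Or.inr (step_lt e h))]
  · rintro _ ⟨x, rfl⟩ _ ⟨y, rfl⟩
    by_cases h : x = y
    · exact Or.inl (by rw [h])
    · obtain ⟨i, hi⟩ := Function.ne_iff.1 h
      exact Or.inr ⟨_, ⟨i, rfl⟩, by rw [xi_iff, xi_iff]; simpa using hi⟩
  · rintro (p | x | w | w)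
    · exact Or.inl ⟨p, rfl⟩
    · exact Or.inr ⟨_, ⟨x, rfl⟩, Or.inl rfl⟩
    · exact Or.inr ⟨_, ⟨e w, rfl⟩, Or.inr (Or.inr ⟨by simp, _, ⟨w, rfl⟩,
        (ad e (.mr w) (by simp)).symm, ad e (.mx w) (by simp)⟩)⟩
    · exact Or.inr ⟨_, ⟨e w, rfl⟩, Or.inr (Or.inl ⟨⟨w, rfl⟩, ad e (.mx w) (by simp)⟩)⟩
  · rintro _ _ _ _ ⟨x, rfl⟩ ⟨y, rfl⟩ ⟨⟨u, rfl⟩, -, a | a⟩ ⟨⟨v, rfl⟩, -, b | b⟩ <;> cases a <;>
      cases b
    simp
  · have : ∀ z x, lift2 (Md r e) z (vX x) → ∃ w, z = vR w ∧ x = e w := by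
      rintro z x ⟨n, _, ⟨w, rfl⟩, ⟨-, a | a⟩, -, b | b⟩ <;> cases a <;> cases b
      · exact ⟨_, rfl, rfl⟩
      · exact absurd ⟨_, rfl⟩ n
    rintro z _ z' _ ⟨x, rfl⟩ ⟨y, rfl⟩ a b
    obtain ⟨u, rfl, rfl⟩ := this _ _ a
    obtain ⟨v, rfl, rfl⟩ := this _ _ b
    simp
  · exact ⟨_, _, ⟨e (.inl ⟨0, by omega⟩), rfl⟩, ⟨e (.inl ⟨1, by omega⟩), rfl⟩, by simp⟩
  · exact ⟨_, _, ⟨⟨0, by omega⟩, rfl⟩, ⟨⟨1, by omega⟩, rfl⟩, by simp⟩

lemma adj_p {b : Bool} {i : Fin (r + 2)} {v : V t m r} (h : (Md r e).G.Adj (.inl (b, i)) v) :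
    ∃ j, v = .inl (b, j) ∧ j.1 ≤ i.1 + 1 := by
  obtain ⟨-, a | a⟩ := h <;> cases a <;> exact ⟨_, rfl, by omega⟩

lemma walk_p {u v : V t m r} (w : (Md r e).G.Walk u v) : ∀ b i, u = .inl (b, i) →
    ∃ j, v = .inl (b, j) ∧ j.1 ≤ i.1 + w.length := by
  induction w with
  | nil => exact fun b i h => ⟨i, h, le_rfl⟩
  | cons h w ih =>
    rintro b i rfl
    obtain ⟨j, rfl, hj⟩ := adj_p e h
    obtain ⟨k, rfl, hk⟩ := ih b j rfl
    exact ⟨k, rfl, by simp; omega⟩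

def sw : V t m r → V t m r := Sum.map (Prod.map (!·) id) id

lemma sw_sw (v : V t m r) : sw (sw v) = v := by rcases v with ⟨b, i⟩ | v <;> simp [sw]

lemma sw_rel {u v : V t m r} (h : Rel e u v) : Rel e (sw u) (sw v) := by
  cases h <;> simp only [sw, Sum.map_inl, Sum.map_inr, Prod.map, id] <;> constructor <;> assumption

def σ : (Md r e).G ≃g (Md r e).G where
  toEquiv := Involutive.toPerm sw sw_sw
  map_rel_iff' := by
    have : ∀ u v, (Md r e).G.Adj u v → (Md r e).G.Adj (sw u) (sw v) := fun u v h =>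
      ⟨fun a => h.1 (Involutive.injective sw_sw a), h.2.imp (sw_rel e) (sw_rel e)⟩
    exact fun {u v} => ⟨fun h => by simpa [sw_sw] using this _ _ h, this _ _⟩

lemma nbhd : NbhdIso (Md r e) r (.inl (false, 0)) (.inl (true, 0)) := by
  have mp : ∀ a, Set.MapsTo sw (ball (Md r e) r a) (ball (Md r e) r (sw a)) := by
    rintro a v ⟨w, hw⟩
    exact ⟨w.map (σ e).toHom, (w.length_map _).trans_le hw⟩
  refine ⟨(σ e).induce (Set.InvOn.bijOn ⟨fun v _ => sw_sw v, fun v _ => sw_sw v⟩ (mp _) (mp _)),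
    ?_, by rintro ⟨_, _⟩ rfl; rfl⟩
  rintro k ⟨v, w, hw⟩
  obtain ⟨j, rfl, hj⟩ := walk_p e w _ _ rfl
  have : j ≠ Fin.last _ := by rintro rfl; simp at hj; omega
  show _ ↔ (Sum.inl (true, j) : V t m r) ∈ _
  fin_cases k <;> simp [this]

end model

theorem result : ∃ φ : Fm 8,
    (∀ (A : CGraph 8) (f g : A.V → ℕ), Numbering A f → Numbering A g → ∀ a : A.V,
      (Sat A f φ (fun _ => a) ↔ Sat A g φ (fun _ => a))) ∧
    ∀ r : ℕ, ∃ (A : CGraph 8) (f : A.V → ℕ) (a b : A.V), Numbering A f ∧ NbhdIso A r a b ∧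
      Sat A f φ (fun _ => a) ∧ ¬ Sat A f φ (fun _ => b) := by
  refine ⟨phi, fun A f g hf hg a => by rw [sat_iff A hf, sat_iff A hg], fun r => ?_⟩
  obtain ⟨m, ⟨e⟩⟩ := emb (2 * (r + 2))
  have hf : Numbering (Md r e) (fun v => (Finite.equivFin _ v).1 + 1) := by
    refine ⟨fun v _ => ⟨by simp, (Finite.equivFin _ v).2⟩, fun u _ v _ h =>
      (Finite.equivFin _).injective (Fin.ext (by simpa using h)), fun k hk =>
      ⟨(Finite.equivFin _).symm ⟨k - 1, by have := hk.1; have := hk.2; omega⟩, trivial, ?_⟩⟩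
    have := hk.1
    simp; omega
  refine ⟨Md r e, _, _, _, hf, nbhd e, (sat_iff _ hf _).2 ⟨guard e (by omega), ⟨_, rfl⟩, ?_,
    Set.range (fun j => .inl (false, j)), ⟨0, rfl⟩, ?_, ?_⟩, fun h => ?_⟩
  · show (Set.range _).ncard ≤ (Set.range _).ncard
    rw [Set.ncard_range_of_injective Sum.inl_injective,
      Set.ncard_range_of_injective (fun _ _ h => by simpa using h)]
    simp
  · rintro _ - q - h ⟨j, rfl⟩
    obtain ⟨k, rfl, -⟩ := adj_p e h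
    exact ⟨k, rfl⟩
  · rintro _ - h ⟨j, rfl⟩
    simp at h
  · obtain ⟨-, -, -, Y, Y1, Y2, Y3⟩ := (sat_iff _ hf _).1 h
    refine Y3 _ ⟨_, rfl⟩ rfl ?_
    generalize Fin.last (r + 1) = j
    induction j using Fin.induction with
    | zero => exact Y1
    | succ j ih =>
      exact Y2 _ ⟨_, rfl⟩ _ ⟨_, rfl⟩ (ad e (.p _ _ _ rfl) (by simp [Fin.ext_iff])) ih

end Pool.Agent.Results.MP_abe753_lc.NotLocal
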